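import Pool.Agent.Y167.CCMain

set_option autoImplicit false

/-!
# Relative torus quotients: the faces of `A^e(X/Z)`, rational nef classes, base point freeness, and
# small modifications of the lattice

Let `X = V / Γ` be a projective quotient of a complex torus (an abelian variety) by any finite group,
of any dimension. The group may contain reflections, so that `K_X` need not be trivial. Let
`X → Z = W / Γ'` be a fibration, given by a linear map `π : V → W`, and `Δ` an effective divisor on `X`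
with real coefficients such that `K_X + Δ` is numerically trivial over `Z`.

The starting file `TorusQuotients` here shows that `A^e(X/Z)` has a rational polyhedral fundamental
domain for `Aut(X/Z, Δ)`. New here, in the relative case: `Eff(X/Z) ⊆ Nef(X/Z)`; `A^e(X/Z)` is the convex
hull `Nef^+(X/Z)` of the rational nef classes, and it is spanned by the classes of base point free line
bundles on `X`; its faces (which correspond to the contractions of `X` over `Z`) form finitely many
orbits under `Aut(X/Z, Δ)`; the groups are only assumed to preserve some lattice commensurable with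
the integral classes.
-/

namespace Pool.Agent.Results.MP_20d318_ag.RelativeFaces

open Pool.Agent.W594.SYZ2 Pool.Agent.TH735.AQ
open Pool.Agent.Y167 (AffGrp EffDiv NumTrivial Normalizes cone IsFace IsClass rel_of_emb cone_le cone_ind)
open Pool.Agent.Y167.CC

/-- The affine transformation `f` of `V` induces an automorphism over `Z = W / Γ'`. -/
def Over {V W : Type*} [NormedAddCommGroup V] [NormedSpace ℂ V] [NormedAddCommGroup W]
    [NormedSpace ℂ W] (Γ' : AffGrp W) (π : V →ₗ[ℂ] W) (f : V ≃ᵃ[ℂ] V) : Prop :=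
  ∃ δ ∈ Γ', ∀ v, π (f v) = δ (π v)

/-- `𝒢` is a group of linear automorphisms of `N^1(X/Z)` which preserves the cone of nef and effective
classes and a lattice commensurable with the integral classes, and which contains the pullbacks
`f^*` by all automorphisms of `X` over `Z` which are induced by affine transformations `f` of `V` and
map `Δ` to itself. The image of `Aut(X/Z, Δ)` has these properties. -/
structure IsAutGroup {V W E : Type*} [NormedAddCommGroup V] [NormedSpace ℂ V]
    [NormedAddCommGroup W] [NormedSpace ℂ W] [NormedAddCommGroup E] [NormedSpace ℂ E]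
    {Γ : AffGrp V} (Γ' : AffGrp W) (π : V →ₗ[ℂ] W) {j : E →ₗ[ℂ] V} {ι : Type*} [Fintype ι]
    (Δ : EffDiv Γ ι) (𝒢 : LinGrp (N1 Γ j)) : Prop where
  lattice : ∃ (M : AddSubgroup (N1 Γ j)) (k : ℕ), 0 < k ∧
    (∀ x ∈ integral Γ j, (k : ℝ) • x ∈ M) ∧ (∀ x ∈ M, (k : ℝ) • x ∈ integral Γ j) ∧
    ∀ g ∈ 𝒢, ∀ x ∈ M, g x ∈ M
  nef_eff : Preserves 𝒢 (nefCone Γ j ∩ effCone Γ j)
  aff : ∀ f : V ≃ᵃ[ℂ] V, Normalizes Γ f → Over Γ' π f → (∀ v, Δ.mul (f v) = Δ.mul v) →
    ∀ g, IsPullback f g → g ∈ 𝒢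

/-- The classes of the base point free line bundles on `X`. -/
def bpf {V E : Type*} [NormedAddCommGroup V] [NormedSpace ℂ V] [NormedAddCommGroup E]
    [NormedSpace ℂ E] (Γ : AffGrp V) (j : E →ₗ[ℂ] V) : Set (N1 Γ j) :=
  {x | ∃ L : LineBundle Γ, IsClass j L (form x) ∧ ∀ v, ∃ s, L.IsSection s ∧ s v ≠ 0}

/-- Let `X = V / Γ` be a projective torus quotient, `X → Z = W / Γ'` a fibration and `Δ` an effective
divisor with real coefficients on `X` such that `K_X + Δ` is numerically trivial over `Z`. Here `E` is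
the kernel of `π`, embedded by `j`.
(1) Effective classes are nef.
(2) `A^e(X/Z)` is the convex hull of the rational nef classes.
(3) `A^e(X/Z)` is the convex cone spanned by the classes of base point free line bundles.
(4) There is a rational polyhedral fundamental domain for the action of `𝒢` on `A^e(X/Z)`, spanned by
finitely many integral classes.
(5) There are finitely many faces of `A^e(X/Z)` such that each face of `A^e(X/Z)` is the image of one
of them under an element of `𝒢`. -/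
theorem result {V W E : Type*} [NormedAddCommGroup V] [NormedSpace ℂ V] [FiniteDimensional ℂ V]
    [NormedAddCommGroup W] [NormedSpace ℂ W] [FiniteDimensional ℂ W]
    [NormedAddCommGroup E] [NormedSpace ℂ E] [FiniteDimensional ℂ E]
    (Γ : AffGrp V) (hΓ : IsTorusQuotient Γ)
    (hproj : ∃ (L : LineBundle Γ) (H : V → V → ℂ), IsChernForm L H ∧ IsPositiveForm H)
    (Γ' : AffGrp W) (π : V →ₗ[ℂ] W) (hπ : IsFibration Γ Γ' π)
    (j : E →ₗ[ℂ] V) (hj : Function.Injective j) (hjr : LinearMap.range j = LinearMap.ker π)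
    {ι : Type*} [Fintype ι] (Δ : EffDiv Γ ι) (hΔ : NumTrivial Δ j)
    (𝒢 : LinGrp (N1 Γ j)) (h𝒢 : IsAutGroup Γ' π Δ 𝒢) :
    effCone Γ j ⊆ nefCone Γ j ∧
    nefCone Γ j ∩ effCone Γ j = convexHull ℝ (nefCone Γ j ∩ rational Γ j) ∧
    nefCone Γ j ∩ effCone Γ j = {x | ∃ S : Finset (N1 Γ j), ↑S ⊆ bpf Γ j ∧ x ∈ cone S} ∧
    (∃ S : Finset (N1 Γ j), ↑S ⊆ integral Γ j ∧ cone S ⊆ nefCone Γ j ∩ effCone Γ j ∧
      IsFundDomain 𝒢 (nefCone Γ j ∩ effCone Γ j) (cone S)) ∧
    ∃ 𝓕 : Set (Set (N1 Γ j)), 𝓕.Finite ∧ (∀ F ∈ 𝓕, IsFace F (nefCone Γ j ∩ effCone Γ j)) ∧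
      ∀ F, IsFace F (nefCone Γ j ∩ effCone Γ j) → ∃ g ∈ 𝒢, ∃ F' ∈ 𝓕, F = g '' F' := by
  obtain ⟨L, H, hc, hp⟩ := hproj
  have R := rel_of_emb hj hjr hΓ hπ hc hp
  obtain ⟨M, k, hk, hM1, hM2, hM3⟩ := h𝒢.lattice
  obtain ⟨S, h1, h2, h3⟩ := core R Δ hΔ M hk hM1 hM2 𝒢 hM3 h𝒢.nef_eff
    (fun f hf hf2 hf3 g hg => h𝒢.aff f hf ⟨1, Γ'.one_mem, fun v => by
      obtain ⟨e, he⟩ := hf2 v
      have h5 : π (j e) = 0 := by
        have h6 : j e ∈ LinearMap.ker π := hjr ▸ LinearMap.mem_range_self j e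
        exact h6
      rw [he, map_add, h5, add_zero]
      rfl⟩ hf3 g hg)
  refine ⟨eff_nef hΓ, nef_plus R, ?_, ⟨S, h1, h2, h3⟩, finite_faces 𝒢 R h𝒢.nef_eff h2 h3⟩
  refine Set.Subset.antisymm (nefEff_sub_span R fun x L hL hs => ⟨L, hL, hs⟩) ?_
  rintro x ⟨T, hT, hx⟩
  have he : x ∈ effCone Γ j := by
    refine ⟨T, fun a ha => ?_, hx⟩
    obtain ⟨L, hL, hs⟩ := hT ha
    obtain ⟨s, hs1, hs2⟩ := hs 0
    exact ⟨L, s, hL, hs1, 0, hs2⟩
  exact ⟨eff_nef hΓ he, he⟩

end Pool.Agent.Results.MP_20d318_ag.RelativeFaces
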